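import Pool.Agent.W873.Gmp.Final

set_option autoImplicit false

/-!
# Under the guessing model principle `κ⁺`-centered forcings preserve the tree property at `κ⁺⁺`

Let `κ` be an infinite cardinal such that `GMP` holds at `κ⁺⁺`. Then in each extension by a
`κ⁺`-centered forcing notion every tree of height `κ⁺⁺` with levels of size at most `κ⁺` has a
cofinal branch. The definitions are in `Pool.Agent.W873.Gmp.Defs`, the forcing relation is the one
of `Pool.Agent.Helper669.Forcing`.

Proof. Let `P` be the union of directed sets `P_ν`, `ν < κ`, and let `T` be a name for a tree. For
nodes `x, y` let `x <_ν y` if some condition in `P_ν` forces that `x` is below `y` in `T`. Let `M` be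
a guessing model, let `δ` be the least ordinal below `κ⁺⁺` not in `M`, and let `t` be a node of
level `δ`. Then `δ` has cofinality `κ⁺`. For `ν < κ` let `b_ν` be the set of the nodes `x <_ν t`; for
some `ν` this is cofinal in `δ`. In this case some `e_ν ∈ M` satisfies `e_ν ∩ M = b_ν`. As `M` is
closed under sequences of length less than `κ` and guessing, some `a ∈ M` of size at most `κ`
contains all the `e_ν`; and some `η < δ` bounds all `b_ν` which are not cofinal. By
elementarity there are `a` and `η` which are as above for unboundedly many `δ < κ⁺⁺`. For
unboundedly many of these `δ` the set `e_ν` is the same for a fixed `ν`. For two such `t, t'` of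
levels `δ ≤ δ'` some condition in `P_ν` forces that all predecessors of `t` are predecessors of
`t'`: below a condition in `P_ν` for each `μ` at most one ordinal below `δ` is forced by conditions
in `P_μ` to be the least level where `t` and `t'` split, so these levels are bounded below `δ`. Fix
one such `t₀`. Some condition forces that there are unboundedly many such `t` above `t₀` in this
sense; any two of these are coherent (here `η` is used), so they give a cofinal branch.
-/

namespace Pool.Agent.Results.MP_1b145a_lc.CenteredPreservesTreeProp

open Cardinal Pool.Agent.W873.Gmp

/-- If the guessing model principle holds for `κ⁺⁺`, then every condition of every `κ⁺`-centered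
forcing notion forces that each tree of height `κ⁺⁺` with levels of size at most `κ⁺` has a cofinal
branch. -/
theorem result (κ : Cardinal.{0}) (hκ : ℵ₀ ≤ κ) (hG : GMP κ) (P : Type) [Preorder P]
    (hC : Centered κ P) (p : P) :
    p ∈ TreeProp P (Order.succ (Order.succ κ)).ord.ToType (Order.succ κ).ord.ToType :=
  treeProp hκ hG P hC p

end Pool.Agent.Results.MP_1b145a_lc.CenteredPreservesTreeProp
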